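import Pool.Agent.L7h83.HO.Stm

set_option autoImplicit false

/-! Project HO, parts CNT and EXU. -/

namespace Pool.Agent.L7h5.HO
open Pool.Agent.L7h83.HO

theorem s_EXU : EXU := by
  intro a ha
  obtain ⟨u, hu⟩ := IsAlgClosed.exists_pow_nat_eq
    (Complex.I * (starRingEnd ℂ) a / (‖a‖ : ℂ)) (by norm_num : 0 < 8)
  have hna : (‖a‖ : ℂ) ≠ 0 := by
    simpa using ha
  have hn : ‖a‖ ≠ 0 := by simpa using ha
  refine ⟨u, ?_, ?_⟩
  · have h1 : ‖u‖ ^ 8 = 1 := by
      rw [← norm_pow, hu, norm_div, norm_mul, Complex.norm_I, Complex.norm_conj,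
        Complex.norm_real, norm_norm, one_mul, div_self hn]
    exact (pow_eq_one_iff_of_nonneg (norm_nonneg u) (by norm_num)).1 h1
  · rw [hu]
    have h2 : a * (Complex.I * (starRingEnd ℂ) a / (‖a‖ : ℂ)) = (‖a‖ : ℂ) * Complex.I := by
      have h3 : a * (starRingEnd ℂ) a = (‖a‖ : ℂ) ^ 2 := by
        rw [Complex.mul_conj, Complex.normSq_eq_norm_sq]
        push_cast
        ring
      field_simp
      linear_combination h3
    rw [h2]
    simp

lemma root_of {a w : ℂ} (hw : ‖w‖ = 1) (h : (a * w ^ 8).re = 0) :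
    a ^ 2 * w ^ 16 + (‖a‖ : ℂ) ^ 2 = 0 := by
  have h1 : a * w ^ 8 + (starRingEnd ℂ) (a * w ^ 8) = 0 := by
    rw [Complex.add_conj, h]
    simp
  have h3 : a * (starRingEnd ℂ) a = (‖a‖ : ℂ) ^ 2 := by
    rw [Complex.mul_conj, Complex.normSq_eq_norm_sq]
    push_cast
    ring
  have h4 : w * (starRingEnd ℂ) w = 1 := by
    rw [Complex.mul_conj, Complex.normSq_eq_norm_sq, hw]
    norm_num
  rw [map_mul, map_pow] at h1
  have h5 : w ^ 8 * (starRingEnd ℂ) w ^ 8 = 1 := by rw [← mul_pow, h4, one_pow]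
  rw [← h3]
  linear_combination (a * w ^ 8) * h1 - (a * (starRingEnd ℂ) a) * h5

theorem s_CNT : CNT := by
  classical
  intro a ha k D hdis hD hneg hex
  choose u hu v hv hvu hvu' using hex
  set P : Polynomial ℂ := Polynomial.C (a ^ 2) * Polynomial.X ^ 16 +
    Polynomial.C ((‖a‖ : ℂ) ^ 2) with hP
  have ha2 : a ^ 2 ≠ 0 := pow_ne_zero 2 ha
  have hdeg : P.natDegree = 16 := by
    rw [hP]
    compute_degree!
  have hP0 : P ≠ 0 := by
    rintro h0
    rw [h0] at hdeg
    simp at hdeg
  have hmem : ∀ i, ∀ w ∈ D i, w ∈ P.roots.toFinset := by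
    intro i w hw
    obtain ⟨h1, h2⟩ := hD i w hw
    rw [Multiset.mem_toFinset, Polynomial.mem_roots hP0, Polynomial.IsRoot.def, hP]
    simpa using root_of h1 h2
  have hne : ∀ i, ∀ w ∈ D i, w ≠ 0 := by
    rintro i w hw rfl
    have := (hD i 0 hw).1
    simp at this
  have hself : ∀ w : ℂ, w ≠ 0 → w ≠ -w := by
    intro w hw h
    apply hw
    have h2 : (2 : ℂ) * w = 0 := by linear_combination h
    rcases mul_eq_zero.1 h2 with h3 | h3
    · norm_num at h3
    · exact h3
  let f : Fin k × Fin 4 → ℂ := fun x => ![u x.1, -u x.1, v x.1, -v x.1] x.2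
  have hfD : ∀ x, f x ∈ D x.1 := by
    rintro ⟨i, j⟩
    fin_cases j
    · exact hu i
    · exact hneg i _ (hu i)
    · exact hv i
    · exact hneg i _ (hv i)
  have hinj : Function.Injective f := by
    rintro ⟨i, j⟩ ⟨i', j'⟩ h
    have hii : i = i' := by
      by_contra hne'
      have h1 := hfD (i, j)
      have h2 := hfD (i', j')
      rw [h] at h1
      exact Set.disjoint_left.1 (hdis i i' hne') h1 h2
    subst hii
    have e1 := hself _ (hne i _ (hu i))
    have e2 := hself _ (hne i _ (hv i))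
    have e3 := hvu i
    have e4 := hvu' i
    have e5 : -v i ≠ u i := fun h5 => e4 (by rw [← h5, neg_neg])
    have e6 : -v i ≠ -u i := fun h5 => e3 (neg_injective h5)
    congr 1
    fin_cases j <;> fin_cases j' <;> first | rfl | (exfalso; first
      | exact e1 h | exact e1 h.symm | exact e2 h | exact e2 h.symm | exact e3 h | exact e3 h.symm
      | exact e4 h | exact e4 h.symm | exact e5 h | exact e5 h.symm | exact e6 h | exact e6 h.symm)
  have hcard : (Finset.univ.image f).card = k * 4 := by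
    rw [Finset.card_image_of_injective _ hinj]
    simp
  have hsub : Finset.univ.image f ⊆ P.roots.toFinset := by
    intro w hw
    obtain ⟨x, -, rfl⟩ := Finset.mem_image.1 hw
    exact hmem _ _ (hfD x)
  have h1 := Finset.card_le_card hsub
  have h2 : P.roots.toFinset.card ≤ 16 :=
    (Multiset.toFinset_card_le _).trans ((Polynomial.card_roots' P).trans hdeg.le)
  omega

end Pool.Agent.L7h5.HO
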